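import Pool.Agent.P8H79.RC.Stm

/-!
# Package STA of the project RC
-/

set_option autoImplicit false

namespace Pool.Agent.P8H94.RC

open Finset Pool.Agent.P8H79.RC

section

variable {V : Type} {G : SimpleGraph V}

theorem cc_comm (a b : V) : cc G a b = cc G b a := by
  unfold cc
  congr 1
  ext x
  exact and_comm

/-- a triangle with two given vertices -/
theorem tri_pair [DecidableEq V] {T : Finset V} (hT : G.IsNClique 3 T) {p q : V} (hp : p ∈ T)
    (hq : q ∈ T) (hpq : p ≠ q) :
    ∃ t, T = {p, q, t} ∧ t ≠ p ∧ t ≠ q ∧ G.Adj p q ∧ G.Adj p t ∧ G.Adj q t := by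
  have h1 : (T.erase p).card = 2 := by rw [card_erase_of_mem hp, hT.card_eq]
  have h2 : q ∈ T.erase p := mem_erase.mpr ⟨hpq.symm, hq⟩
  have h3 : ((T.erase p).erase q).card = 1 := by rw [card_erase_of_mem h2, h1]
  obtain ⟨t, ht⟩ := card_eq_one.mp h3
  have ht' : t ∈ (T.erase p).erase q := by rw [ht]; exact mem_singleton_self t
  have htq : t ≠ q := (mem_erase.mp ht').1
  have htp : t ≠ p := (mem_erase.mp (mem_erase.mp ht').2).1
  have htT : t ∈ T := (mem_erase.mp (mem_erase.mp ht').2).2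
  refine ⟨t, ?_, htp, htq, hT.isClique hp hq hpq, hT.isClique hp htT htp.symm,
    hT.isClique hq htT htq.symm⟩
  rw [← insert_erase hp, ← insert_erase h2, ht]

theorem mk_tri [DecidableEq V] {p q t : V} (h1 : G.Adj p q) (h2 : G.Adj p t) (h3 : G.Adj q t) :
    G.IsNClique 3 {p, q, t} := by
  rw [SimpleGraph.is3Clique_triple_iff]
  exact ⟨h1, h2, h3⟩

/-- common neighbours, `cc = 1` -/
theorem cc_one [Finite V] {a b x y : V} (h : cc G a b = 1) (hx : G.Adj a x ∧ G.Adj b x)
    (hy : G.Adj a y ∧ G.Adj b y) : x = y := by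
  unfold cc at h
  obtain ⟨z, hz⟩ := Set.ncard_eq_one.mp h
  have h1 : x ∈ ({z} : Set V) := by rw [← hz]; exact hx
  have h2 : y ∈ ({z} : Set V) := by rw [← hz]; exact hy
  rw [Set.mem_singleton_iff] at h1 h2
  rw [h1, h2]

/-- common neighbours, `cc = 2` -/
theorem cc_two [Finite V] {a b x : V} (h : cc G a b = 2) (hx : G.Adj a x ∧ G.Adj b x) :
    ∃ y, y ≠ x ∧ G.Adj a y ∧ G.Adj b y ∧ ∀ z, G.Adj a z → G.Adj b z → z = x ∨ z = y := by
  unfold cc at h
  obtain ⟨u, v, huv, hs⟩ := Set.ncard_eq_two.mp h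
  have hmem : ∀ z, (G.Adj a z ∧ G.Adj b z) ↔ (z = u ∨ z = v) := by
    intro z
    have h1 : z ∈ {x : V | G.Adj a x ∧ G.Adj b x} ↔ z ∈ ({u, v} : Set V) := by rw [hs]
    simpa using h1
  rcases (hmem x).mp hx with rfl | rfl
  · have h2 := (hmem v).mpr (Or.inr rfl)
    exact ⟨v, huv.symm, h2.1, h2.2, fun z h3 h4 => (hmem z).mp ⟨h3, h4⟩⟩
  · have h2 := (hmem u).mpr (Or.inl rfl)
    exact ⟨u, huv, h2.1, h2.2, fun z h3 h4 => ((hmem z).mp ⟨h3, h4⟩).symm⟩

theorem sta_aux [Finite V] (S : Tri G) (p q r : V) [DecidableEq V] (hS : S.1 = {p, q, r})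
    (h1 : cc G p q = 1) (h2 : cc G q r = 2) (h3 : cc G p r = 2) :
    ((triGraph G).neighborSet S).ncard = 2 := by
  rename_i hinst
  obtain rfl : hinst = (fun a b => Classical.propDecidable (a = b)) := Subsingleton.elim _ _
  classical
  have hcl := S.2
  rw [hS, SimpleGraph.is3Clique_triple_iff] at hcl
  obtain ⟨hpq, hpr, hqr⟩ := hcl
  obtain ⟨y, hyp, hqy, hry, hy⟩ := cc_two h2 ⟨hpq.symm, hpr.symm⟩
  obtain ⟨w, hwq, hpw, hrw, hw⟩ := cc_two h3 ⟨hpq, hqr.symm⟩
  have hyq : y ≠ q := hqy.ne.symm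
  have hyr : y ≠ r := hry.ne.symm
  have hwp : w ≠ p := hpw.ne.symm
  have hwr : w ≠ r := hrw.ne.symm
  let T1 : Tri G := ⟨{q, r, y}, mk_tri hqr hqy hry⟩
  let T2 : Tri G := ⟨{p, r, w}, mk_tri hpr hpw hrw⟩
  have h12 : T1 ≠ T2 := by
    intro h
    have h4 : ({q, r, y} : Finset V) = {p, r, w} := congrArg Subtype.val h
    have h5 : p ∈ ({q, r, y} : Finset V) := by rw [h4]; simp
    simp only [mem_insert, mem_singleton] at h5
    rcases h5 with h5 | h5 | h5
    · exact hpq.ne h5
    · exact hpr.ne h5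
    · exact hyp h5.symm
  have hint : ∀ (T : Tri G) (a b t : V), T.1 = {a, b, t} → a ∈ S.1 → b ∈ S.1 → t ∉ S.1 → a ≠ b →
      (triGraph G).Adj S T := by
    intro T a b t hT ha hb ht hab
    refine ⟨?_, ?_⟩
    · rintro rfl
      exact ht (by rw [hT]; simp)
    · have h4 : S.1 ∩ T.1 = {a, b} := by
        ext z
        rw [mem_inter, hT]
        simp only [mem_insert, mem_singleton]
        constructor
        · rintro ⟨h5, h6 | h6 | h6⟩
          · exact Or.inl h6
          · exact Or.inr h6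
          · exact absurd (h6 ▸ h5) ht
        · rintro (rfl | rfl)
          · exact ⟨ha, Or.inl rfl⟩
          · exact ⟨hb, Or.inr (Or.inl rfl)⟩
      have h5 : (S.1 ∩ T.1).card = 2 := by rw [h4]; exact card_pair hab
      exact h5
  have hset : (triGraph G).neighborSet S = {T1, T2} := by
    ext T
    rw [SimpleGraph.mem_neighborSet, Set.mem_insert_iff, Set.mem_singleton_iff]
    constructor
    · rintro ⟨hne, hcard⟩
      have hcard' : (S.1 ∩ T.1).card = 2 := hcard
      obtain ⟨a, b, hab, hST⟩ := card_eq_two.mp hcard'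
      have ha : a ∈ S.1 ∩ T.1 := by rw [hST]; simp
      have hb : b ∈ S.1 ∩ T.1 := by rw [hST]; simp
      rw [mem_inter] at ha hb
      obtain ⟨t, hT, hta, htb, hadj, hat, hbt⟩ := tri_pair T.2 ha.2 hb.2 hab
      have htS : t ∉ S.1 := by
        intro ht
        have h4 : t ∈ S.1 ∩ T.1 := mem_inter.mpr ⟨ht, by rw [hT]; simp⟩
        rw [hST] at h4
        simp only [mem_insert, mem_singleton] at h4
        rcases h4 with h4 | h4
        · exact hta h4
        · exact htb h4
      have htS' := htS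
      rw [hS] at htS'
      simp only [mem_insert, mem_singleton, not_or] at htS'
      obtain ⟨htp, htq, htr⟩ := htS'
      have ha' := ha.1
      have hb' := hb.1
      rw [hS] at ha' hb'
      simp only [mem_insert, mem_singleton] at ha' hb'
      -- the pairs
      have hPQ : ∀ t, G.Adj p t → G.Adj q t → t = r := fun t h4 h5 =>
        cc_one h1 ⟨h4, h5⟩ ⟨hpr, hqr⟩
      have fin1 : T.1 = {q, r, t} → G.Adj q t → G.Adj r t → T = T1 := by
        intro h4 h5 h6
        have h7 : t = y := (hy t h5 h6).resolve_left htp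
        apply Subtype.ext
        show T.1 = {q, r, y}
        rw [h4, h7]
      have fin2 : T.1 = {p, r, t} → G.Adj p t → G.Adj r t → T = T2 := by
        intro h4 h5 h6
        have h7 : t = w := (hw t h5 h6).resolve_left htq
        apply Subtype.ext
        show T.1 = {p, r, w}
        rw [h4, h7]
      have comm : ∀ u v z : V, ({u, v, z} : Finset V) = {v, u, z} := fun u v z => insert_comm u v _
      rcases ha' with rfl | rfl | rfl <;> rcases hb' with rfl | rfl | rfl
      · exact absurd rfl hab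
      · exact absurd (hPQ t hat hbt) htr
      · exact Or.inr (fin2 hT hat hbt)
      · exact absurd (hPQ t hbt hat) htr
      · exact absurd rfl hab
      · exact Or.inl (fin1 hT hat hbt)
      · exact Or.inr (fin2 (by rw [hT, comm]) hbt hat)
      · exact Or.inl (fin1 (by rw [hT, comm]) hbt hat)
      · exact absurd rfl hab
    · rintro (rfl | rfl)
      · exact hint T1 q r y rfl (by rw [hS]; simp) (by rw [hS]; simp) (by
          rw [hS]
          simp only [mem_insert, mem_singleton, not_or]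
          exact ⟨hyp, hyq, hyr⟩) hqr.ne
      · exact hint T2 p r w rfl (by rw [hS]; simp) (by rw [hS]; simp) (by
          rw [hS]
          simp only [mem_insert, mem_singleton, not_or]
          exact ⟨hwp, hwq, hwr⟩) hpr.ne
  rw [hset]
  exact Set.ncard_pair h12

end

theorem sta : S_STA := by
  classical
  intro V _ G h1 h2 S
  obtain ⟨a, b, x, hab, hax, hbx, hS⟩ := SimpleGraph.is3Clique_iff.mp S.2
  rcases h2 a b x hab hbx hax with ⟨e1, e2, e3⟩ | ⟨e1, e2, e3⟩ | ⟨e1, e2, e3⟩
  · exact sta_aux S a b x hS e1 e2 e3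
  · -- cc b x = 1
    refine sta_aux S b x a ?_ e2 (by rw [cc_comm]; exact e3) (by rw [cc_comm]; exact e1)
    rw [hS]
    ext z
    simp only [mem_insert, mem_singleton]
    tauto
  · refine sta_aux S a x b ?_ e3 (by rw [cc_comm]; exact e2) e1
    rw [hS]
    ext z
    simp only [mem_insert, mem_singleton]
    tauto

end Pool.Agent.P8H94.RC
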