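import Pool.Agent.P8H94.RC.Sta

/-!
# Package STC of the project RC
-/

set_option autoImplicit false

namespace Pool.Agent.P8H94.RC

open Finset Pool.Agent.P8H79.RC

section

variable {V : Type} {G : SimpleGraph V}

theorem three [Finite V] [DecidableEq V] {T1 T2 T3 : Finset V} (h1 : G.IsNClique 3 T1)
    (h2 : G.IsNClique 3 T2) (h3 : G.IsNClique 3 T3) (h12 : T1 ≠ T2) (h13 : T1 ≠ T3) (h23 : T2 ≠ T3)
    {a b : V} (hab : a ≠ b) (ha1 : a ∈ T1) (ha2 : a ∈ T2) (ha3 : a ∈ T3) (hb1 : b ∈ T1)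
    (hb2 : b ∈ T2) (hb3 : b ∈ T3) (hcc : cc G a b = 1 ∨ cc G a b = 2) : False := by
  obtain ⟨u, hu, hua, hub, -, hau, hbu⟩ := tri_pair h1 ha1 hb1 hab
  obtain ⟨v, hv, hva, hvb, -, hav, hbv⟩ := tri_pair h2 ha2 hb2 hab
  obtain ⟨w, hw, hwa, hwb, -, haw, hbw⟩ := tri_pair h3 ha3 hb3 hab
  have huv : u ≠ v := by rintro rfl; exact h12 (hu.trans hv.symm)
  have huw : u ≠ w := by rintro rfl; exact h13 (hu.trans hw.symm)
  have hvw : v ≠ w := by rintro rfl; exact h23 (hv.trans hw.symm)
  rcases hcc with h | h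
  · exact huv (cc_one h ⟨hau, hbu⟩ ⟨hav, hbv⟩)
  · obtain ⟨y, -, -, -, hy⟩ := cc_two h ⟨hau, hbu⟩
    have e1 : v = y := (hy v hav hbv).resolve_left huv.symm
    have e2 : w = y := (hy w haw hbw).resolve_left huw.symm
    exact hvw (e1.trans e2.symm)

end

theorem stc : S_STC := by
  classical
  intro V _ G N hN hcard hcc hdeg havoid T hT hadj
  haveI : NeZero N := ⟨by omega⟩
  have hz : ∀ k : ℕ, 0 < k → k < N → ((k : ℕ) : ZMod N) ≠ 0 := by
    intro k hk hkN h
    rw [ZMod.natCast_eq_zero_iff] at h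
    exact absurd (Nat.le_of_dvd hk h) (by omega)
  have hne1 : ∀ i : ZMod N, i - 1 ≠ i := by
    intro i h
    have h1 : (1 : ZMod N) = 0 := by linear_combination -h
    exact hz 1 (by omega) (by omega) (by simpa using h1)
  have hne2 : ∀ i : ZMod N, i - 1 ≠ i + 1 := by
    intro i h
    have h1 : (2 : ZMod N) = 0 := by linear_combination -h
    exact hz 2 (by omega) (by omega) (by simpa using h1)
  have hne3 : ∀ i : ZMod N, i ≠ i + 1 := by
    intro i h
    have h1 : (1 : ZMod N) = 0 := by linear_combination -h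
    exact hz 1 (by omega) (by omega) (by simpa using h1)
  set t : ZMod N → Finset V := fun i => (T i).1 with ht
  have htc : ∀ i, G.IsNClique 3 (t i) := fun i => (T i).2
  have htinj : ∀ i j, t i = t j → i = j := fun i j h => hT.1 (Subtype.ext h)
  have h2 : ∀ i, (t i ∩ t (i + 1)).card = 2 := by
    intro i
    have h := (hadj i).2
    convert h
  have hd : ∀ i, (t (i + 1) \ t i).card = 1 := by
    intro i
    have h3 := card_sdiff_add_card_inter (t (i + 1)) (t i)
    rw [(htc (i + 1)).card_eq, inter_comm, h2 i] at h3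
    omega
  choose y hy using fun i => card_eq_one.mp (hd i)
  set x : ZMod N → V := fun i => y (i - 1) with hx
  have hx1 : ∀ i, t i \ t (i - 1) = {x i} := by
    intro i
    have h3 := hy (i - 1)
    rw [sub_add_cancel] at h3
    exact h3
  have hxm : ∀ i, x i ∈ t i ∧ x i ∉ t (i - 1) := by
    intro i
    have h3 : x i ∈ t i \ t (i - 1) := by rw [hx1]; exact mem_singleton_self _
    exact mem_sdiff.mp h3
  have hxs : ∀ i, x (i + 1) ∈ t (i + 1) ∧ x (i + 1) ∉ t i := by
    intro i
    have h3 := hxm (i + 1)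
    rwa [add_sub_cancel_right] at h3
  -- x i in t (i+1)
  have hxn : ∀ i, x i ∈ t (i + 1) := by
    intro i
    by_contra hcon
    have hsub : t i ∩ t (i + 1) ⊆ t i ∩ t (i - 1) := by
      intro u hu
      rw [mem_inter] at hu ⊢
      refine ⟨hu.1, ?_⟩
      by_contra hu'
      have h3 : u ∈ t i \ t (i - 1) := mem_sdiff.mpr ⟨hu.1, hu'⟩
      rw [hx1, mem_singleton] at h3
      exact hcon (h3 ▸ hu.2)
    obtain ⟨a, b, hab, hP⟩ := card_eq_two.mp (h2 i)
    have ha : a ∈ t i ∩ t (i + 1) := by rw [hP]; simp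
    have hb : b ∈ t i ∩ t (i + 1) := by rw [hP]; simp
    have ha' := hsub ha
    have hb' := hsub hb
    rw [mem_inter] at ha hb ha' hb'
    exact three (htc (i - 1)) (htc i) (htc (i + 1)) (fun h => hne1 i (htinj _ _ h))
      (fun h => hne2 i (htinj _ _ h)) (fun h => hne3 i (htinj _ _ h)) hab ha'.2 ha.1 ha.2 hb'.2
      hb.1 hb.2 (hcc a b ((htc i).isClique ha.1 hb.1 hab))
  have hez : ∀ i, ((t i ∩ t (i + 1)).erase (x i)).card = 1 := by
    intro i
    rw [card_erase_of_mem (mem_inter.mpr ⟨(hxm i).1, hxn i⟩), h2]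
  choose z hz' using fun i => card_eq_one.mp (hez i)
  have hzm : ∀ i, z i ≠ x i ∧ z i ∈ t i ∧ z i ∈ t (i + 1) := by
    intro i
    have h3 : z i ∈ (t i ∩ t (i + 1)).erase (x i) := by rw [hz']; exact mem_singleton_self _
    rw [mem_erase, mem_inter] at h3
    exact h3
  have hT1 : ∀ i, ∀ u, u ∈ t (i + 1) ↔ u = z i ∨ u = x i ∨ u = x (i + 1) := by
    intro i u
    constructor
    · intro hu
      by_cases hu' : u ∈ t i
      · by_cases hux : u = x i
        · exact Or.inr (Or.inl hux)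
        · left
          have h3 : u ∈ (t i ∩ t (i + 1)).erase (x i) :=
            mem_erase.mpr ⟨hux, mem_inter.mpr ⟨hu', hu⟩⟩
          rw [hz', mem_singleton] at h3
          exact h3
      · right; right
        have h3 : u ∈ t (i + 1) \ t i := mem_sdiff.mpr ⟨hu, hu'⟩
        have h4 := hx1 (i + 1)
        rw [add_sub_cancel_right] at h4
        rw [h4, mem_singleton] at h3
        exact h3
    · rintro (rfl | rfl | rfl)
      · exact (hzm i).2.2
      · exact hxn i
      · exact (hxs i).1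
  have hstep : ∀ i, z (i + 1) = z i ∨ z (i + 1) = x i := by
    intro i
    rcases (hT1 i (z (i + 1))).mp (hzm (i + 1)).2.1 with h | h | h
    · exact Or.inl h
    · exact Or.inr h
    · exact absurd h (hzm (i + 1)).1
  -- surjectivity
  have htri : ∀ a b, G.Adj a b → ∃ i, a ∈ t (i + 1) ∧ b ∈ t (i + 1) := by
    intro a b hab
    have h3 : 0 < cc G a b := by
      rcases hcc a b hab with h | h <;> omega
    obtain ⟨w, hw1, hw2⟩ := (Set.ncard_pos (Set.toFinite _)).mp h3
    obtain ⟨i, hi⟩ := hT.2 ⟨{a, b, w}, mk_tri hab hw1 hw2⟩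
    have h4 : t i = {a, b, w} := congrArg Subtype.val hi
    refine ⟨i - 1, ?_, ?_⟩
    · rw [sub_add_cancel, h4]; simp
    · rw [sub_add_cancel, h4]; simp
  have hsurj : Function.Surjective x := by
    intro v
    by_contra hcon
    push Not at hcon
    have hback : ∀ i, v ∈ t i → v ∈ t (i - 1) := by
      intro i hi
      by_contra h3
      have h4 : v ∈ t i \ t (i - 1) := mem_sdiff.mpr ⟨hi, h3⟩
      rw [hx1, mem_singleton] at h4
      exact hcon i h4.symm
    obtain ⟨w, hw⟩ := hdeg v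
    obtain ⟨i, hi, -⟩ := htri v w hw
    have hall : ∀ k : ℕ, v ∈ t (i + 1 - k) := by
      intro k
      induction k with
      | zero => simpa using hi
      | succ k ih =>
        have h3 := hback _ ih
        have h4 : i + 1 - ((k + 1 : ℕ) : ZMod N) = i + 1 - (k : ZMod N) - 1 := by
          push_cast
          ring
        rwa [h4]
    obtain ⟨a, b, c, hab, hbc, hac, hva, hvb, hvc⟩ := havoid v
    obtain ⟨j, hj⟩ := hT.2 ⟨{a, b, c}, mk_tri hab hac hbc⟩
    have h5 : t j = {a, b, c} := congrArg Subtype.val hj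
    have h6 := hall (i + 1 - j).val
    rw [ZMod.natCast_zmod_val, sub_sub_cancel, h5] at h6
    simp only [mem_insert, mem_singleton] at h6
    rcases h6 with h6 | h6 | h6
    · exact hva h6
    · exact hvb h6
    · exact hvc h6
  have hbij : Function.Bijective x := by
    rw [Fintype.bijective_iff_surjective_and_card]
    exact ⟨hsurj, by rw [ZMod.card, hcard]⟩
  refine ⟨x, z, hbij, hstep, fun a b => ⟨fun hab => ?_, ?_⟩⟩
  · obtain ⟨i, ha, hb⟩ := htri a b hab
    have hne : a ≠ b := hab.ne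
    have key : ∀ i, (z i = x (i - 1) ∨ z i = z (i - 1)) := by
      intro i
      have h3 := hstep (i - 1)
      rw [sub_add_cancel] at h3
      exact h3.symm
    rcases (hT1 i a).mp ha with ha' | ha' | ha' <;> rcases (hT1 i b).mp hb with hb' | hb' | hb'
    · exact absurd (ha'.trans hb'.symm) hne
    · refine ⟨i - 1, Or.inr ⟨?_, ?_⟩⟩
      · rw [sub_add_cancel]; exact hb'
      · rw [ha']; exact key i
    · exact ⟨i, Or.inr ⟨hb', Or.inr ha'⟩⟩
    · refine ⟨i - 1, Or.inl ⟨?_, ?_⟩⟩
      · rw [sub_add_cancel]; exact ha'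
      · rw [hb']; exact key i
    · exact absurd (ha'.trans hb'.symm) hne
    · exact ⟨i, Or.inr ⟨hb', Or.inl ha'⟩⟩
    · exact ⟨i, Or.inl ⟨ha', Or.inr hb'⟩⟩
    · exact ⟨i, Or.inl ⟨ha', Or.inl hb'⟩⟩
    · exact absurd (ha'.trans hb'.symm) hne
  · have hadj1 : ∀ i, G.Adj (x (i + 1)) (x i) := by
      intro i
      refine (htc (i + 1)).isClique (hxs i).1 (hxn i) ?_
      intro h
      exact (hxs i).2 (h ▸ (hxm i).1)
    have hadj2 : ∀ i, G.Adj (x (i + 1)) (z i) := by
      intro i
      refine (htc (i + 1)).isClique (hxs i).1 (hzm i).2.2 ?_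
      intro h
      exact (hxs i).2 (h ▸ (hzm i).2.1)
    rintro ⟨i, ⟨rfl, rfl | rfl⟩ | ⟨rfl, rfl | rfl⟩⟩
    · exact hadj1 i
    · exact hadj2 i
    · exact (hadj1 i).symm
    · exact (hadj2 i).symm

end Pool.Agent.P8H94.RC
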